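import Pool.Agent.WR3.StmtsB

set_option autoImplicit false

/-! Row RFU of WR3. -/

namespace Pool.Agent.WR3.H17

open Pool.Agent.WIR Pool.Agent.WR2 Pool.Agent.WR3
open scoped BigOperators

/-- the pairs -/
def AS (a : ℕ) (x : ℝ) : Set (ℕ × ℕ) :=
  {p | T^[p.1] p.2 = a ∧ (2 : ℝ) ^ p.1 ≤ x * 3 ^ od p.1 p.2}

theorem od_succ (s b : ℕ) : od (s + 1) b = od s b + (if T^[s] b % 2 = 1 then 1 else 0) := by
  unfold od
  rw [Finset.range_add_one, Finset.filter_insert]
  split_ifs with h
  · rw [Finset.card_insert_of_notMem (by simp)]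
  · rfl

theorem AS_fin (h1 : RmuStmt) (a : ℕ) (ha : 0 < a) (x : ℝ) :
    (AS a x).Finite ∧ FR a x = ((AS a x).ncard : ℝ) := by
  classical
  obtain ⟨hf, hb, -, -⟩ := h1 a ha
  let F : Finset (ℕ × ℕ) := (Finset.Icc 1 ⌊(a : ℝ) * x⌋₊).biUnion fun c =>
    (hf x c).toFinset.image fun τ => (τ, c)
  have hF : AS a x = (F : Set (ℕ × ℕ)) := by
    ext ⟨τ, c⟩
    simp only [F, Finset.coe_biUnion, Finset.coe_image, Set.Finite.coe_toFinset, Set.mem_iUnion,
      Set.mem_image, Finset.mem_coe, Finset.mem_Icc, Prod.mk.injEq, AS, Set.mem_setOf_eq,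
      exists_prop]
    constructor
    · rintro ⟨h2, h3⟩
      obtain ⟨h4, h5⟩ := hb x c τ h2 h3
      exact ⟨c, ⟨h4, Nat.le_floor h5⟩, τ, ⟨h2, h3⟩, rfl, rfl⟩
    · rintro ⟨c', -, τ', h2, rfl, rfl⟩
      exact h2
  refine ⟨hF ▸ F.finite_toSet, ?_⟩
  rw [hF, Set.ncard_coe_finset, FR, Finset.card_biUnion]
  · push_cast
    refine Finset.sum_congr rfl fun c _ => ?_
    rw [Finset.card_image_of_injective _ (fun x y h => (Prod.mk.inj h).1), mu,
      Set.ncard_eq_toFinset_card _ (hf x c)]
  · intro c _ c' _ hcc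
    rw [Function.onFun, Finset.disjoint_left]
    rintro ⟨t, s⟩ h h'
    rw [Finset.mem_image] at h h'
    obtain ⟨_, _, h2⟩ := h
    obtain ⟨_, _, h3⟩ := h'
    exact hcc ((Prod.mk.inj h2).2.trans (Prod.mk.inj h3).2.symm)

theorem T_eq (c a : ℕ) (ha : 0 < a) : T c = a ↔ (c = 2 * a) ∨ (3 ∣ 2 * a - 1 ∧ c = (2 * a - 1) / 3) := by
  unfold T
  constructor
  · intro h
    split_ifs at h with h1
    · right
      refine ⟨⟨c, by omega⟩, by omega⟩
    · left
      omega
  · rintro (h | ⟨⟨k, hk⟩, h⟩)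
    · rw [if_neg (by omega)]
      omega
    · have h2 : c = k := by omega
      rw [if_pos (by omega)]
      omega

/-- **Row RFU.** -/
theorem rfu (h1 : RmuStmt) : RfuStmt := by
  intro a ha x hx
  obtain ⟨f0, e0⟩ := AS_fin h1 a ha x
  obtain ⟨f1, e1⟩ := AS_fin h1 (2 * a) (by omega) (x / 2)
  let f : ℕ × ℕ → ℕ × ℕ := fun p => (p.1 + 1, p.2)
  have hf : Function.Injective f := by
    rintro ⟨p, q⟩ ⟨p', q'⟩ h
    simp only [f, Prod.mk.injEq] at h
    ext <;> simp <;> omega
  let S0 : Set (ℕ × ℕ) := if 1 ≤ x then {(0, a)} else ∅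
  let S2 : Set (ℕ × ℕ) := if 3 ∣ 2 * a - 1 then f '' AS ((2 * a - 1) / 3) (3 * x / 2) else ∅
  have hdec : AS a x = (S0 ∪ f '' AS (2 * a) (x / 2)) ∪ S2 := by
    ext ⟨τ, b⟩
    rcases τ with _ | τ
    · simp only [AS, Set.mem_setOf_eq, Function.iterate_zero, id, pow_zero, od, Finset.range_zero,
        Finset.filter_empty, Finset.card_empty, mul_one, Set.mem_union, S0, S2, f, Set.mem_image,
        Prod.mk.injEq]
      constructor
      · rintro ⟨h2, h3⟩
        left; left
        rw [if_pos h3, h2]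
        rfl
      · rintro ((h2 | h2) | h2)
        · split_ifs at h2 with h3
          · rw [Set.mem_singleton_iff, Prod.mk.injEq] at h2
            exact ⟨h2.2, h3⟩
          · exact absurd h2 (Set.notMem_empty _)
        · obtain ⟨p, -, h3, -⟩ := h2
          omega
        · split_ifs at h2 with h3
          · obtain ⟨p, -, h4⟩ := h2
            have := (Prod.mk.inj h4).1
            simp at this
          · exact absurd h2 (Set.notMem_empty _)
    · have h2 : ((τ + 1, b) ∈ AS a x) ↔ ((τ, b) ∈ AS (2 * a) (x / 2)) ∨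
          (3 ∣ 2 * a - 1 ∧ (τ, b) ∈ AS ((2 * a - 1) / 3) (3 * x / 2)) := by
        simp only [AS, Set.mem_setOf_eq, Function.iterate_succ_apply', T_eq _ _ ha, od_succ]
        constructor
        · rintro ⟨h3 | ⟨h3, h4⟩, h5⟩
          · left
            refine ⟨h3, ?_⟩
            rw [h3, if_neg (by omega), add_zero, pow_succ] at h5
            linarith
          · right
            refine ⟨h3, h4, ?_⟩
            rw [h4, if_pos (by omega), pow_succ, pow_succ] at h5
            linarith
        · rintro (⟨h3, h5⟩ | ⟨h3, h4, h5⟩)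
          · refine ⟨Or.inl h3, ?_⟩
            rw [h3, if_neg (by omega), add_zero, pow_succ]
            linarith
          · refine ⟨Or.inr ⟨h3, h4⟩, ?_⟩
            rw [h4, if_pos (by omega), pow_succ, pow_succ]
            linarith
      rw [h2]
      have h3 : (τ + 1, b) ∉ S0 := by
        simp only [S0]
        split_ifs
        · simp
        · simp
      have h4 : (τ + 1, b) ∈ f '' AS (2 * a) (x / 2) ↔ (τ, b) ∈ AS (2 * a) (x / 2) :=
        hf.mem_set_image (a := (τ, b))
      have h5 : (τ + 1, b) ∈ S2 ↔ (3 ∣ 2 * a - 1 ∧ (τ, b) ∈ AS ((2 * a - 1) / 3) (3 * x / 2)) := by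
        simp only [S2]
        split_ifs with h6
        · rw [and_iff_right h6]
          exact hf.mem_set_image (a := (τ, b))
        · simp [h6]
      rw [Set.mem_union, Set.mem_union, h4, h5]
      tauto
  have d1 : Disjoint S0 (f '' AS (2 * a) (x / 2)) := by
    rw [Set.disjoint_left]
    rintro ⟨p, q⟩ h h'
    obtain ⟨r, -, h3⟩ := h'
    simp only [S0] at h
    split_ifs at h
    · rw [Set.mem_singleton_iff, Prod.mk.injEq] at h
      have := (Prod.mk.inj h3).1
      omega
    · exact h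
  have d2 : Disjoint (S0 ∪ f '' AS (2 * a) (x / 2)) S2 := by
    rw [Set.disjoint_left]
    rintro ⟨p, q⟩ h h'
    simp only [S2] at h'
    split_ifs at h' with h6
    · obtain ⟨r, hr, h3⟩ := h'
      rcases h with h | ⟨r', hr', h4⟩
      · simp only [S0] at h
        split_ifs at h
        · rw [Set.mem_singleton_iff, Prod.mk.injEq] at h
          have := (Prod.mk.inj h3).1
          omega
        · exact h
      · have h5 : r = r' := hf (h3.trans h4.symm)
        rw [h5] at hr
        have h7 : (2 * a - 1) / 3 = 2 * a := hr.1.symm.trans hr'.1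
        omega
    · exact h'
  have n0 : (S0.ncard : ℝ) = if 1 ≤ x then 1 else 0 := by
    simp only [S0]
    split_ifs
    · simp
    · simp
  have s0 : S0.Finite := by
    simp only [S0]
    split_ifs
    · exact Set.finite_singleton _
    · exact Set.finite_empty
  have s2 : S2.Finite ∧ (S2.ncard : ℝ) =
      if 3 ∣ 2 * a - 1 then FR ((2 * a - 1) / 3) (3 * x / 2) else 0 := by
    simp only [S2]
    split_ifs with h6
    · obtain ⟨f2, e2⟩ := AS_fin h1 ((2 * a - 1) / 3) (by omega) (3 * x / 2)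
      exact ⟨f2.image f, by rw [Set.ncard_image_of_injective _ hf, e2]⟩
    · exact ⟨Set.finite_empty, by simp⟩
  rw [e0, hdec, Set.ncard_union_eq d2 (s0.union (f1.image f)) s2.1,
    Set.ncard_union_eq d1 s0 (f1.image f), Set.ncard_image_of_injective _ hf, e1]
  push_cast
  rw [n0, s2.2]

end Pool.Agent.WR3.H17
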